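import Pool.Agent.helper9.HX.Spec

set_option autoImplicit false

open scoped Classical

namespace Pool.Agent.helper9.HX

open Finset

theorem N4 : N4_stmt := by
  intro m ν hν hm
  have hkey : ∀ n : ℝ, 16 * ((ν : ℝ) - 1) ≤ (2 * n - m) ^ 2 + 16 * (m - 1 - n) →
      (m : ℝ) / 2 + 2 * √((ν : ℝ) - 1) ≤ F m n := by
    intro n hn
    have hF : F m n = ((m : ℝ) + √((2 * n - m) ^ 2 + 16 * (m - 1 - n))) / 2 := rfl
    rw [hF]
    have h1 : 4 * √((ν : ℝ) - 1) = √(16 * ((ν : ℝ) - 1)) := by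
      rw [Real.sqrt_mul (by norm_num)]
      have : √(16 : ℝ) = 4 := by
        rw [show (16 : ℝ) = 4 ^ 2 by norm_num, Real.sqrt_sq (by norm_num)]
      rw [this]
    have h2 := Real.sqrt_le_sqrt hn
    rw [← h1] at h2
    linarith
  apply hkey
  rcases Nat.even_or_odd m with ⟨k, hk⟩ | ⟨k, hk⟩
  · have h1 : (m + 1) / 2 = k := by omega
    rw [h1, hk]
    have h2 : (ν : ℝ) ≤ k := by
      have : ν ≤ k := by omega
      exact_mod_cast this
    push_cast
    nlinarith
  · have h1 : (m + 1) / 2 = k + 1 := by omega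
    rw [h1, hk]
    have h2 : (ν : ℝ) ≤ k := by
      have : ν ≤ k := by omega
      exact_mod_cast this
    push_cast
    nlinarith

end Pool.Agent.helper9.HX
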